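import Pool.Agent.Helper28.MAJ.PfSum
import Pool.Agent.Helper10.AD.Tree

/-!
Adaptive randomised algorithms with zero tests (MP_b6562f_lc): the product of the tests with
positive answer is a sum of products of Pfaffians, and its degree in every variable.
-/

set_option autoImplicit false
set_option linter.unusedSectionVars false

namespace Pool.AD

open MvPolynomial Pool.Agent.Helper76.CDET Pool.MAJ

section
variable {F : Type} [Field F] {V Ya : Type} [Fintype V] {N : ℕ}

/-- the product of at most `h` tests -/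
theorem prod_class {r m δ ν h : ℕ} (hr : 1 ≤ r) (f : Fin N → MvPolynomial (V ⊕ Ya) F)
    (U : Finset (Fin N)) (hU : U.card ≤ h) (hf : ∀ v, IsPfSum r m δ ν (f v)) :
    IsPfSum (r ^ h) (h * m) δ (h * ν) (∏ v ∈ U, f v) :=
  IsPfSum.mono' (IsPfSum.prod' U f fun v _ => hf v) (Nat.pow_le_pow_right hr hU)
    (Nat.mul_le_mul_right m hU) (Nat.mul_le_mul_right ν hU)

/-- the product of the tests with positive answer on the path of the tree -/
theorem prod_ones_class {r m δ ν h : ℕ} (hr : 1 ≤ r) (f : Fin N → MvPolynomial (V ⊕ Ya) F)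
    (t : DT N) (ht : t.depth ≤ h) (a : Fin N → Bool) (hf : ∀ v, IsPfSum r m δ ν (f v)) :
    IsPfSum (r ^ h) (h * m) δ (h * ν) (∏ v ∈ t.ones a, f v) :=
  prod_class hr f _ ((DT.card_ones a t).trans ht) hf

/-- determinants -/
theorem prod_class_det {r m h : ℕ} (hr : 1 ≤ r) (f : Fin N → MvPolynomial (V ⊕ Ya) F)
    (U : Finset (Fin N)) (hU : U.card ≤ h) (hm : 1 ≤ m) (hf : ∀ v, IsDetSum r m (f v)) (hh : 1 ≤ h) :
    IsDetSum (r ^ h) (h * m) (∏ v ∈ U, f v) :=
  IsDetSum.mono (IsDetSum.prod U f fun v _ => hf v) (Nat.pow_le_pow_right hr hU)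
    (Nat.mul_le_mul_right m hU) (Nat.one_le_iff_ne_zero.2 (Nat.mul_ne_zero (by omega) (by omega)))

end

section
variable {F : Type} [Field F] {W : Type} {κ : Type}

theorem degreeOf_le_of_support {p : MvPolynomial W F} {x : W} {e : ℕ}
    (h : ∀ μ ∈ p.support, μ x ≤ e) : p.degreeOf x ≤ e := by
  rw [degreeOf_le_iff]
  exact h

/-- the degree in every variable of the product of at most `h` tests -/
theorem prod_indiv {h e : ℕ} (f : κ → MvPolynomial W F) (U : Finset κ) (hU : U.card ≤ h) (x : W)
    (hf : ∀ v ∈ U, ∀ μ ∈ (f v).support, μ x ≤ e) : ∀ μ ∈ (∏ v ∈ U, f v).support, μ x ≤ h * e := by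
  classical
  rw [← degreeOf_le_iff]
  refine (degreeOf_prod_le x U f).trans ((Finset.sum_le_card_nsmul U _ e fun v hv =>
    degreeOf_le_of_support (hf v hv)).trans ?_)
  rw [smul_eq_mul]
  exact Nat.mul_le_mul_right e hU

end

section
variable {F : Type} [Field F] {V Ya : Type} [Fintype V] {κ : Type}

/-- the degree in the input variables of the product of at most `h` tests -/
theorem prod_vdeg {h e : ℕ} (f : κ → MvPolynomial (V ⊕ Ya) F) (U : Finset κ) (hU : U.card ≤ h)
    (hf : ∀ v ∈ U, VDeg e (f v)) : VDeg (h * e) (∏ v ∈ U, f v) := by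
  classical
  have h1 : VDeg (U.card * e) (∏ v ∈ U, f v) := by
    clear hU
    induction U using Finset.induction_on with
    | empty =>
      rw [Finset.prod_empty, Finset.card_empty, zero_mul]
      exact VDeg.one 0
    | insert a U ha ih =>
      rw [Finset.prod_insert ha, Finset.card_insert_of_notMem ha, add_mul, one_mul, add_comm]
      exact VDeg.mul (hf a (Finset.mem_insert_self a U))
        (ih fun v hv => hf v (Finset.mem_insert_of_mem hv))
  exact fun μ hμ => (h1 μ hμ).trans (Nat.mul_le_mul_right e hU)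

end

end Pool.AD
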